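import Pool.Agent.Helper95.PN.Stmts

set_option autoImplicit false

namespace Pool.Agent.Helper95.PW

open MeasureTheory Filter

theorem potb_term (z d r Zj : ℝ) (hz : 0 ≤ z) (hd : 0 < d) (hr : 0 ≤ r) (hZ : Zj ≤ z) :
    Zj / r ≤ z * d * (if r < d then 1 / r ^ 2 else 0) +
      z * (if d / 2 ≤ r then 1 / r else 0) := by
  have hfar : 0 ≤ z * (if d / 2 ≤ r then 1 / r else 0) := by
    refine mul_nonneg hz ?_
    split_ifs
    · exact one_div_nonneg.2 hr
    · exact le_refl 0
  by_cases hrd : r < d
  · rw [if_pos hrd]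
    rcases hr.eq_or_lt with h0 | h0
    · rw [← h0] at hfar ⊢
      have h1 : Zj / (0 : ℝ) = 0 := div_zero _
      have h2 : z * d * (1 / (0 : ℝ) ^ 2) = 0 := by simp
      rw [h1, h2, zero_add]
      exact hfar
    · have h3 : Zj / r ≤ z * d * (1 / r ^ 2) := by
        rw [div_le_iff₀ h0]
        have h4 : z * d * (1 / r ^ 2) * r = z * (d / r) := by
          field_simp
        rw [h4]
        have h5 : 1 ≤ d / r := by
          rw [le_div_iff₀ h0]
          linarith
        nlinarith
      linarith
  · rw [if_neg hrd, if_pos (by linarith), mul_zero, zero_add, mul_one_div]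
    exact div_le_div_of_nonneg_right hZ hr

theorem st_POTB (h1 : ST_PK) (h2 : ST_HLOC) (h3 : ST_INTM) : ST_POTB := by
  obtain ⟨C1, hC1, H1⟩ := h1
  obtain ⟨C2, hC2, H2⟩ := h2
  intro z d hz hd
  refine ⟨z * d * C2 + 2 * z * C2 / d + 2 * z * C1 / d + 1, by positivity, ?_⟩
  intro n M X Z u hM hSep _ hZz hu hsq
  obtain ⟨hint, hone⟩ := H2 n M X d u hd hSep hu
  obtain ⟨P, hP⟩ : ∃ P : ℝ, P = (M : ℝ) ^ (2 / 3 : ℝ) := ⟨_, rfl⟩
  have hM1 : (1 : ℝ) ≤ P := by
    rw [hP]
    exact Real.one_le_rpow (by exact_mod_cast hM) (by norm_num)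
  have hpt : ∀ y, pot X Z y ≤ z * d * near2 X d y + z * (C1 * P / d) := by
    intro y
    have h4 := H1 M X d y hd hSep
    rw [← hP] at h4
    have h5 : pot X Z y ≤ z * d * near2 X d y + z * far1 X d y := by
      unfold pot near2 far1
      rw [Finset.mul_sum, Finset.mul_sum, ← Finset.sum_add_distrib]
      exact Finset.sum_le_sum fun j _ =>
        potb_term z d (nr (y - X j)) (Z j) hz hd (Real.sqrt_nonneg _) (hZz j)
    have h6 := mul_le_mul_of_nonneg_left h4 hz
    linarith
  have hus : ∀ s, Integrable (fun x : Cf n => u s x ^ 2) := by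
    intro s
    have hc : Continuous (fun x : Cf n => u s x ^ 2) := (hu s).1.continuous.pow 2
    refine hc.integrable_of_hasCompactSupport ?_
    exact (hu s).2.comp_left (g := fun t : ℝ => t ^ 2) (by norm_num)
  have hbound : one (pot X Z) u ≤ z * d * one (near2 X d) u + n * (z * (C1 * P / d)) * sq u := by
    unfold one sq
    rw [Finset.mul_sum, Finset.mul_sum, ← Finset.sum_add_distrib]
    refine Finset.sum_le_sum fun s _ => ?_
    rw [← integral_const_mul, ← integral_const_mul,
      ← integral_add ((hint s).const_mul _) ((hus s).const_mul _)]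
    refine integral_mono ?_ (((hint s).const_mul _).add ((hus s).const_mul _)) ?_
    · have h7 := (h3 n M X Z (u s) (u s) (hu s).1 (hu s).2 (hu s).1 (hu s).2).1
      have h8 : (fun x : Cf n => (∑ k, pot X Z (x k)) * u s x ^ 2) =
          fun x : Cf n => (∑ k, pot X Z (x k)) * (u s x * u s x) := by
        funext x
        rw [pow_two]
      rw [h8]
      exact h7
    · intro x
      have h6 : ∑ k, pot X Z (x k) ≤
          z * d * ∑ k, near2 X d (x k) + n * (z * (C1 * P / d)) := by
        rw [Finset.mul_sum]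
        calc ∑ k, pot X Z (x k) ≤ ∑ k : Fin n, (z * d * near2 X d (x k) + z * (C1 * P / d)) :=
              Finset.sum_le_sum fun k _ => hpt (x k)
          _ = ∑ k : Fin n, z * d * near2 X d (x k) + n * (z * (C1 * P / d)) := by
              rw [Finset.sum_add_distrib, Finset.sum_const, Finset.card_univ, Fintype.card_fin,
                nsmul_eq_mul]
      have h7 := mul_le_mul_of_nonneg_right h6 (sq_nonneg (u s x))
      calc (∑ k, pot X Z (x k)) * u s x ^ 2 ≤
            (z * d * ∑ k, near2 X d (x k) + n * (z * (C1 * P / d))) * u s x ^ 2 := h7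
        _ = z * d * ((∑ k, near2 X d (x k)) * u s x ^ 2) +
            n * (z * (C1 * P / d)) * u s x ^ 2 := by ring
  have hkin : 0 ≤ kin u := by
    unfold kin sq
    refine Finset.sum_nonneg fun k _ => Finset.sum_nonneg fun i _ =>
      Finset.sum_nonneg fun s _ => integral_nonneg fun x => sq_nonneg _
  have hn : (0 : ℝ) ≤ n := Nat.cast_nonneg n
  have hP0 : 0 ≤ P := by linarith
  have h9 : z * d * one (near2 X d) u ≤ z * d * (C2 * (kin u + n * 2 / d ^ 2)) := by
    refine mul_le_mul_of_nonneg_left ?_ (by positivity)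
    refine hone.trans ?_
    refine mul_le_mul_of_nonneg_left ?_ hC2.le
    have : (n : ℝ) * sq u / d ^ 2 ≤ n * 2 / d ^ 2 :=
      div_le_div_of_nonneg_right (mul_le_mul_of_nonneg_left hsq hn) (by positivity)
    linarith
  have h10 : n * (z * (C1 * P / d)) * sq u ≤ n * (z * (C1 * P / d)) * 2 :=
    mul_le_mul_of_nonneg_left hsq (by positivity)
  have h11 : z * d * (C2 * (kin u + n * 2 / d ^ 2)) =
      z * d * C2 * kin u + 2 * z * C2 / d * n := by
    field_simp
  have h12 : n * (z * (C1 * P / d)) * 2 = 2 * z * C1 / d * (n * P) := by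
    field_simp
  have h13 : 2 * z * C2 / d * n ≤ 2 * z * C2 / d * (n * P) := by
    refine mul_le_mul_of_nonneg_left ?_ (by positivity)
    nlinarith
  have h14 : 0 ≤ 2 * z * C2 / d * kin u := by positivity
  have h15 : 0 ≤ 2 * z * C1 / d * kin u := by positivity
  have h16 : 0 ≤ z * d * C2 * (n * P) := by positivity
  have h17 : 0 ≤ (n : ℝ) * P := by positivity
  rw [← hP]
  have h18 : (z * d * C2 + 2 * z * C2 / d + 2 * z * C1 / d + 1) * (kin u + n * P) =
      z * d * C2 * kin u + 2 * z * C2 / d * kin u + 2 * z * C1 / d * kin u + kin u +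
      (z * d * C2 * (n * P) + 2 * z * C2 / d * (n * P) + 2 * z * C1 / d * (n * P) + n * P) := by
    ring
  rw [h18]
  linarith

end Pool.Agent.Helper95.PW
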